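import Mathlib

open Polynomial Filter

namespace Pool.Agent.Lib.MP_ab6cf3_nt

/-- A nonconstant real polynomial is injective near `+∞` (Rolle). -/
lemma inj_tail (F : ℝ[X]) (hF : F.derivative ≠ 0) :
    ∃ R : ℝ, ∀ a b : ℝ, R ≤ a → R ≤ b → F.eval a = F.eval b → a = b := by
  obtain ⟨R, hR⟩ := (eventually_atTop.mp (F.derivative.eventually_atTop_not_isRoot hF))
  refine ⟨R, ?_⟩
  have key : ∀ a b : ℝ, R ≤ a → a < b → F.eval a = F.eval b → False := by
    intro a b ha hab h
    obtain ⟨c, hc, hc0⟩ := exists_hasDerivAt_eq_zero (f := fun x => F.eval x)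
      (f' := fun x => F.derivative.eval x) hab F.continuous.continuousOn h
      (fun x _ => F.hasDerivAt x)
    exact hR c (by linarith [hc.1]) hc0
  intro a b ha hb h
  rcases lt_trichotomy a b with h1 | h1 | h1
  · exact (key a b ha h1 h).elim
  · exact h1
  · exact (key b a hb h1 h.symm).elim

/-- A real polynomial of degree at least two outgrows the identity near `+∞`, with a constant
sign. -/
lemma escape (F : ℝ[X]) (hF : 2 ≤ F.natDegree) :
    ∃ s : ℝ, (s = 1 ∨ s = -1) ∧ ∃ R : ℝ, ∀ x : ℝ, R ≤ x → x < s * F.eval x := by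
  have hF0 : F ≠ 0 := by
    rintro rfl
    simp at hF
  have hlc : F.leadingCoeff ≠ 0 := leadingCoeff_ne_zero.mpr hF0
  obtain ⟨s, hs, hslc⟩ : ∃ s : ℝ, (s = 1 ∨ s = -1) ∧ 0 < s * F.leadingCoeff := by
    rcases lt_or_gt_of_ne hlc with h | h
    · exact ⟨-1, Or.inr rfl, by linarith⟩
    · exact ⟨1, Or.inl rfl, by linarith⟩
  refine ⟨s, hs, ?_⟩
  have hs0 : s ≠ 0 := by rcases hs with h | h <;> simp [h]
  have hdegF : (2 : WithBot ℕ) ≤ F.degree := by
    rw [degree_eq_natDegree hF0]; exact_mod_cast hF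
  have hdegC : (C s * F).degree = F.degree := by
    rw [degree_C_mul hs0]
  have hlt : (X : ℝ[X]).degree < (C s * F).degree := by
    rw [hdegC, degree_X]
    refine lt_of_lt_of_le ?_ hdegF
    exact_mod_cast (by norm_num : (1 : ℕ) < 2)
  have hlcQ : (C s * F - X).leadingCoeff = s * F.leadingCoeff := by
    rw [leadingCoeff_sub_of_degree_lt hlt, leadingCoeff_mul, leadingCoeff_C]
  have hdegQ : 0 < (C s * F - X).degree := by
    rw [degree_sub_eq_left_of_degree_lt hlt, hdegC]
    refine lt_of_lt_of_le ?_ hdegF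
    exact_mod_cast (by norm_num : (0 : ℕ) < 2)
  have ht := (C s * F - X).tendsto_atTop_of_leadingCoeff_nonneg hdegQ (by rw [hlcQ]; exact hslc.le)
  obtain ⟨R, hR⟩ := eventually_atTop.mp (ht.eventually_gt_atTop 0)
  refine ⟨R, fun x hx => ?_⟩
  have := hR x hx
  simp only [eval_sub, eval_mul, eval_C, eval_X] at this
  linarith

/-- The key fact: outside every large interval `F (F a) = F (F b)` forces `F a = F b`. -/
lemma key (F : ℝ[X]) (hF : 2 ≤ F.natDegree) :
    ∃ R0 : ℝ, ∀ R, R0 ≤ R → (∀ a, R ≤ |a| → R ≤ |F.eval a|) ∧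
      ∀ a b, R ≤ |a| → R ≤ |b| → F.eval (F.eval a) = F.eval (F.eval b) →
        F.eval a = F.eval b := by
  set G : ℝ[X] := F.comp (-X) with hG
  have hGe : ∀ x : ℝ, G.eval x = F.eval (-x) := by
    intro x; rw [hG, eval_comp]; simp
  have hGd : G.natDegree = F.natDegree := by
    rw [hG, natDegree_comp, natDegree_neg, natDegree_X, mul_one]
  have hd1 : F.derivative ≠ 0 := by
    intro h
    have := derivative_eq_zero.mp h
    omega
  have hd2 : G.derivative ≠ 0 := by
    intro h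
    have := derivative_eq_zero.mp h
    omega
  obtain ⟨s, hs, R1, h1⟩ := escape F hF
  obtain ⟨s', hs', R2, h2⟩ := escape G (by omega)
  obtain ⟨R3, h3⟩ := inj_tail F hd1
  obtain ⟨R4, h4⟩ := inj_tail G hd2
  refine ⟨max 1 (max R1 (max R2 (max R3 R4))), fun R hR => ?_⟩
  simp only [max_le_iff] at hR
  obtain ⟨hR0, hR1, hR2, hR3, hR4⟩ := hR
  have hpos : ∀ a : ℝ, R ≤ a → a < s * F.eval a := fun a ha => h1 a (hR1.trans ha)
  have hneg : ∀ a : ℝ, a ≤ -R → -a < s' * F.eval a := by
    intro a ha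
    have := h2 (-a) (by linarith)
    rwa [hGe, neg_neg] at this
  have hip : ∀ a b : ℝ, R ≤ a → R ≤ b → F.eval a = F.eval b → a = b :=
    fun a b ha hb => h3 a b (hR3.trans ha) (hR3.trans hb)
  have hin : ∀ a b : ℝ, a ≤ -R → b ≤ -R → F.eval a = F.eval b → a = b := by
    intro a b ha hb hab
    have := h4 (-a) (-b) (by linarith) (by linarith) (by rw [hGe, hGe, neg_neg, neg_neg, hab])
    linarith
  have split : ∀ a : ℝ, R ≤ |a| → R ≤ a ∨ a ≤ -R := by
    intro a ha
    rcases le_abs.mp ha with h | h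
    · exact Or.inl h
    · exact Or.inr (by linarith)
  have grow : ∀ a, R ≤ |a| → R ≤ |F.eval a| := by
    intro a ha
    have hsabs : ∀ e : ℝ, (e = 1 ∨ e = -1) → ∀ z : ℝ, e * z ≤ |z| := by
      rintro e (rfl | rfl) z
      · simpa using le_abs_self z
      · simpa using neg_le_abs z
    rcases split a ha with h | h
    · linarith [hpos a h, hsabs s hs (F.eval a)]
    · linarith [hneg a h, hsabs s' hs' (F.eval a)]
  refine ⟨grow, ?_⟩
  intro a b ha hb hab
  have hu := grow a ha
  have hv := grow b hb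
  rcases split _ hu with hu' | hu' <;> rcases split _ hv with hv' | hv'
  · exact hip _ _ hu' hv' hab
  · -- `F a ≥ R`, `F b ≤ -R`
    exfalso
    have e1 := hpos _ hu'
    have e2 := hneg _ hv'
    rcases split a ha with h | h <;> rcases split b hb with h' | h'
    all_goals
      first
        | have e3 := hpos _ h
        | have e3 := hneg _ h
      first
        | have e4 := hpos _ h'
        | have e4 := hneg _ h'
      rcases hs with rfl | rfl <;> rcases hs' with rfl | rfl <;> nlinarith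
  · exfalso
    have e1 := hneg _ hu'
    have e2 := hpos _ hv'
    rcases split a ha with h | h <;> rcases split b hb with h' | h'
    all_goals
      first
        | have e3 := hpos _ h
        | have e3 := hneg _ h
      first
        | have e4 := hpos _ h'
        | have e4 := hneg _ h'
      rcases hs with rfl | rfl <;> rcases hs' with rfl | rfl <;> nlinarith
  · exact hin _ _ hu' hv' hab

lemma iter (F : ℝ[X]) (R : ℝ) (h1 : ∀ a, R ≤ |a| → R ≤ |F.eval a|)
    (h2 : ∀ a b, R ≤ |a| → R ≤ |b| → F.eval (F.eval a) = F.eval (F.eval b) →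
        F.eval a = F.eval b) (k : ℕ) :
    ∀ a b : ℝ, R ≤ |a| → R ≤ |b| →
      (fun x => F.eval x)^[k] a = (fun x => F.eval x)^[k] b → F.eval a = F.eval b := by
  induction k with
  | zero => intro a b _ _ h; simp at h; rw [h]
  | succ k ih =>
    intro a b ha hb h
    rw [Function.iterate_succ_apply, Function.iterate_succ_apply] at h
    exact h2 a b ha hb (ih _ _ (h1 a ha) (h1 b hb) h)


lemma core (f g A B : ℝ[X]) (hf : 2 ≤ f.natDegree) (hg : 0 < g.natDegree)
    (hA : 0 < A.natDegree) (hB : 0 < B.natDegree) (m : ℕ) (hm : 0 < m)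
    (hcomm : ∀ x : ℝ, (fun y => f.eval y)^[m] (g.eval x) = g.eval ((fun y => f.eval y)^[m] x))
    (hC : ∀ k : ℕ, ∃ t : ℝ, (fun y => f.eval y)^[k] (B.eval t) ≠
      g.eval ((fun y => f.eval y)^[k] (A.eval t))) :
    Bornology.IsBounded {t : ℝ | ∃ k : ℕ, (fun y => f.eval y)^[k] (B.eval t) =
      g.eval ((fun y => f.eval y)^[k] (A.eval t))} := by
  set φ : ℝ → ℝ := fun y => f.eval y with hφ
  set F : ℝ[X] := f.comp^[m] X with hF
  have hFe : ∀ x : ℝ, F.eval x = φ^[m] x := by
    intro x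
    rw [hF, iterate_comp_eval, eval_X]
  have hFf : (fun x => F.eval x) = φ^[m] := funext hFe
  have hFd : 2 ≤ F.natDegree := by
    rw [hF, natDegree_iterate_comp, natDegree_X, mul_one]
    calc 2 ≤ f.natDegree := hf
      _ = f.natDegree ^ 1 := (pow_one _).symm
      _ ≤ f.natDegree ^ m := Nat.pow_le_pow_right (by omega) hm
  obtain ⟨R, hR⟩ := key F hFd
  obtain ⟨h1, h2⟩ := hR R le_rfl
  have hdeg : ∀ (r : ℕ) (Q : ℝ[X]), 0 < Q.natDegree → 0 < (f.comp^[r] Q).natDegree := by
    intro r Q hQ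
    rw [natDegree_iterate_comp]
    have : 0 < f.natDegree := by omega
    positivity
  have habs : ∀ Q : ℝ[X], 0 < Q.natDegree → ∀ᶠ t in Bornology.cobounded ℝ, R ≤ |Q.eval t| := by
    intro Q hQ
    have ht := Q.tendsto_norm_atTop (natDegree_pos_iff_degree_pos.mp hQ)
      (tendsto_norm_cobounded_atTop (E := ℝ))
    exact ht.eventually_ge_atTop R
  have hgood : ∀ r : ℕ, ∀ᶠ t in Bornology.cobounded ℝ,
      R ≤ |φ^[r] (B.eval t)| ∧ R ≤ |g.eval (φ^[r] (A.eval t))| ∧
      F.eval (φ^[r] (B.eval t)) ≠ F.eval (g.eval (φ^[r] (A.eval t))) := by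
    intro r
    have e1 := habs _ (hdeg r B hB)
    have e2 := habs (g.comp (f.comp^[r] A)) (by
      rw [natDegree_comp]
      exact Nat.mul_pos hg (hdeg r A hA))
    have hD : F.comp (f.comp^[r] B) - (F.comp g).comp (f.comp^[r] A) ≠ 0 := by
      intro h0
      obtain ⟨t, ht⟩ := hC (m + r)
      apply ht
      have := congrArg (fun Q : ℝ[X] => Q.eval t) h0
      simp only [eval_sub, eval_comp, iterate_comp_eval, eval_zero, sub_eq_zero] at this
      rw [hFe, hFe] at this
      rw [Function.iterate_add_apply, Function.iterate_add_apply, ← hcomm]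
      exact this
    have e3 : ∀ᶠ t in Bornology.cobounded ℝ,
        ¬ (F.comp (f.comp^[r] B) - (F.comp g).comp (f.comp^[r] A)).IsRoot t :=
      Bornology.le_cofinite ℝ (eventually_cofinite_not_isRoot hD)
    filter_upwards [e1, e2, e3] with t t1 t2 t3
    rw [iterate_comp_eval] at t1
    rw [eval_comp, iterate_comp_eval] at t2
    refine ⟨t1, t2, fun h => t3 ?_⟩
    have hBr : (f.comp^[r] B).eval t = φ^[r] (B.eval t) := by rw [iterate_comp_eval]
    have hAr : (f.comp^[r] A).eval t = φ^[r] (A.eval t) := by rw [iterate_comp_eval]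
    rw [IsRoot.def, eval_sub, eval_comp, eval_comp, eval_comp, hBr, hAr]
    exact sub_eq_zero.mpr h
  have hall : ∀ᶠ t in Bornology.cobounded ℝ, ∀ r ∈ Finset.range m,
      R ≤ |φ^[r] (B.eval t)| ∧ R ≤ |g.eval (φ^[r] (A.eval t))| ∧
      F.eval (φ^[r] (B.eval t)) ≠ F.eval (g.eval (φ^[r] (A.eval t))) :=
    (Finset.eventually_all _).2 fun r _ => hgood r
  rw [Bornology.isBounded_def]
  filter_upwards [hall] with t ht
  rintro ⟨k, hk⟩
  obtain ⟨t1, t2, t3⟩ := ht (k % m) (Finset.mem_range.mpr (Nat.mod_lt _ hm))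
  apply t3
  refine iter F R h1 h2 (k / m) _ _ t1 t2 ?_
  have hsemi : Function.Semiconj (fun x => g.eval x) (φ^[m]) (φ^[m]) := fun x => (hcomm x).symm
  have hsq := (hsemi.iterate_right (k / m)) (φ^[k % m] (A.eval t))
  have hkk : k = m * (k / m) + k % m := (Nat.div_add_mod k m).symm
  rw [hkk, Function.iterate_add_apply, Function.iterate_add_apply, Function.iterate_mul] at hk
  rw [hFf, hk]
  exact hsq

/-- A bounded set of reals contains only finitely many rationals of denominator at most `D`. -/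
lemma finite_of_bounded (S : Set ℝ) (hb : Bornology.IsBounded S) (D : ℕ) :
    {t : ℚ | t.den ≤ D ∧ (t : ℝ) ∈ S}.Finite := by
  obtain ⟨M, hM⟩ := hb.subset_closedBall 0
  have hfin : (Set.Icc (-⌈(D : ℝ) * |M|⌉) ⌈(D : ℝ) * |M|⌉ ×ˢ Set.Iic D : Set (ℤ × ℕ)).Finite :=
    (Set.finite_Icc _ _).prod (Set.finite_Iic D)
  refine (hfin.image fun z : ℤ × ℕ => (z.1 : ℚ) / z.2).subset ?_
  rintro t ⟨htD, ht⟩
  have h1 : |(t : ℝ)| ≤ M := by
    have := hM ht
    rwa [mem_closedBall_zero_iff, Real.norm_eq_abs] at this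
  have hden : (0 : ℝ) < (t.den : ℝ) := by exact_mod_cast t.den_pos
  have h2 : |(t.num : ℝ)| ≤ (D : ℝ) * |M| := by
    have h3 : (t.num : ℝ) = (t : ℝ) * t.den := by
      have := Rat.mul_den_eq_num t
      exact_mod_cast this.symm
    rw [h3, abs_mul, abs_of_pos hden, mul_comm]
    have h4 : (t.den : ℝ) ≤ D := by exact_mod_cast htD
    exact mul_le_mul h4 (h1.trans (le_abs_self M)) (abs_nonneg _) (Nat.cast_nonneg D)
  refine ⟨(t.num, t.den), ⟨⟨?_, ?_⟩, htD⟩, ?_⟩
  · have := (abs_le.mp h2).1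
    have h5 := Int.le_ceil ((D : ℝ) * |M|)
    have : ((-⌈(D : ℝ) * |M|⌉ : ℤ) : ℝ) ≤ (t.num : ℝ) := by push_cast; linarith
    exact_mod_cast this
  · have := (abs_le.mp h2).2
    have h5 := Int.le_ceil ((D : ℝ) * |M|)
    have : (t.num : ℝ) ≤ ((⌈(D : ℝ) * |M|⌉ : ℤ) : ℝ) := by linarith
    exact_mod_cast this
  · exact Rat.num_div_den t

end Pool.Agent.Lib.MP_ab6cf3_nt
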